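import Pool.Agent.Helper44.CM.Defs

/-!
# Project MM, row B4.MAT: matrix inequalities
-/

namespace MM27

open CM Matrix

variable {n : ℕ}

theorem quad_eq (G : Mt n) (v : Fin n → ℝ) :
    v ⬝ᵥ G *ᵥ v = ∑ i, ∑ j, v i * G i j * v j := by
  simp only [dotProduct, mulVec]
  refine Finset.sum_congr rfl fun i _ => ?_
  rw [Finset.mul_sum]
  exact Finset.sum_congr rfl fun j _ => by ring

theorem dot_self_eq (v : Fin n → ℝ) : v ⬝ᵥ v = ∑ i, v i ^ 2 := by
  simp only [dotProduct]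
  exact Finset.sum_congr rfl fun i _ => by ring

theorem posSemidef_of_LB {c : ℝ} (hc : 0 ≤ c) {G : Mt n} (hs : G.IsSymm) (hG : LB c G) :
    G.PosSemidef := by
  apply Matrix.PosSemidef.of_dotProduct_mulVec_nonneg
  · rw [Matrix.IsHermitian, Matrix.conjTranspose_eq_transpose_of_trivial]
    exact hs
  · intro v
    have h1 := hG v
    rw [star_trivial, quad_eq]
    have : 0 ≤ c * ∑ i, v i ^ 2 := mul_nonneg hc (Finset.sum_nonneg fun i _ => sq_nonneg _)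
    linarith

theorem posDef_of_LB {c : ℝ} (hc : 0 < c) {G : Mt n} (hs : G.IsSymm) (hG : LB c G) :
    G.PosDef := by
  apply Matrix.PosDef.of_dotProduct_mulVec_pos
  · rw [Matrix.IsHermitian, Matrix.conjTranspose_eq_transpose_of_trivial]
    exact hs
  · intro v hv
    have h1 := hG v
    rw [star_trivial, quad_eq]
    have h2 : 0 < ∑ i, v i ^ 2 := by
      obtain ⟨i, hi⟩ := Function.ne_iff.mp hv
      have h3 : 0 < v i ^ 2 := by
        have : v i ≠ 0 := hi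
        positivity
      exact lt_of_lt_of_le h3
        (Finset.single_le_sum (f := fun i => v i ^ 2) (fun i _ => sq_nonneg _) (Finset.mem_univ i))
    have := mul_pos hc h2
    linarith

theorem mat_det_pos {c : ℝ} (hc : 0 < c) {G : Mt n} (hs : G.IsSymm) (hG : LB c G) :
    0 < G.det := (posDef_of_LB hc hs hG).det_pos

theorem inv_mulVec_sq_le {c : ℝ} (hc : 0 < c) {G : Mt n} (hs : G.IsSymm) (hG : LB c G)
    (p : Fin n → ℝ) : 0 ≤ p ⬝ᵥ G⁻¹ *ᵥ p ∧ p ⬝ᵥ G⁻¹ *ᵥ p ≤ (1 / c) * (p ⬝ᵥ p) := by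
  have hdet : IsUnit G.det := (mat_det_pos hc hs hG).ne'.isUnit
  set q := G⁻¹ *ᵥ p with hq
  have hp : G *ᵥ q = p := by
    rw [hq, mulVec_mulVec, mul_nonsing_inv _ hdet, one_mulVec]
  have h1 := hG q
  have h2 : c * (q ⬝ᵥ q) ≤ p ⬝ᵥ q := by
    rw [dot_self_eq, dotProduct_comm p q]
    conv_rhs => rw [← hp]
    rw [quad_eq]
    exact h1
  have hqq : 0 ≤ q ⬝ᵥ q := by rw [dot_self_eq]; exact Finset.sum_nonneg fun i _ => sq_nonneg _
  have hpp : 0 ≤ p ⬝ᵥ p := by rw [dot_self_eq]; exact Finset.sum_nonneg fun i _ => sq_nonneg _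
  have h3 : 0 ≤ p ⬝ᵥ q := le_trans (mul_nonneg hc.le hqq) h2
  refine ⟨h3, ?_⟩
  have hcs : (p ⬝ᵥ q) ^ 2 ≤ (p ⬝ᵥ p) * (q ⬝ᵥ q) := by
    rw [dot_self_eq, dot_self_eq]
    exact Finset.sum_mul_sq_le_sq_mul_sq Finset.univ p q
  rw [one_div, inv_mul_eq_div, le_div_iff₀ hc]
  rcases h3.eq_or_lt with h4 | h4
  · rw [← h4]; simpa using hpp
  · have h5 : (p ⬝ᵥ q) * ((p ⬝ᵥ q) * c) ≤ (p ⬝ᵥ q) * (p ⬝ᵥ p) := by
      calc (p ⬝ᵥ q) * ((p ⬝ᵥ q) * c) = c * (p ⬝ᵥ q) ^ 2 := by ring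
        _ ≤ c * ((p ⬝ᵥ p) * (q ⬝ᵥ q)) := mul_le_mul_of_nonneg_left hcs hc.le
        _ = (p ⬝ᵥ p) * (c * (q ⬝ᵥ q)) := by ring
        _ ≤ (p ⬝ᵥ p) * (p ⬝ᵥ q) := mul_le_mul_of_nonneg_left h2 hpp
        _ = (p ⬝ᵥ q) * (p ⬝ᵥ p) := by ring
    exact le_of_mul_le_mul_left h5 h4

theorem quad_eq' (G : Mt n) (p : Fin n → ℝ) :
    ∑ i, ∑ j, G i j * p i * p j = p ⬝ᵥ G *ᵥ p := by
  rw [quad_eq]
  exact Finset.sum_congr rfl fun i _ => Finset.sum_congr rfl fun j _ => by ring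

theorem mat_inv_ub {c : ℝ} (hc : 0 < c) {G : Mt n} (hs : G.IsSymm) (hG : LB c G)
    (p : Fin n → ℝ) : 0 ≤ ∑ i, ∑ j, G⁻¹ i j * p i * p j ∧
      ∑ i, ∑ j, G⁻¹ i j * p i * p j ≤ (1 / c) * ∑ i, p i ^ 2 := by
  rw [quad_eq', ← dot_self_eq]
  exact inv_mulVec_sq_le hc hs hG p

theorem inv_symm {G : Mt n} (hs : G.IsSymm) : (G⁻¹).IsSymm := by
  rw [Matrix.IsSymm, Matrix.transpose_nonsing_inv, hs]

/-- entries of the inverse are bounded. -/
theorem mat_inv_entry {c : ℝ} (hc : 0 < c) {G : Mt n} (hs : G.IsSymm) (hG : LB c G) (i j : Fin n) :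
    |G⁻¹ i j| ≤ 1 / c := by
  have hsymm : G⁻¹ j i = G⁻¹ i j := (inv_symm hs).apply i j
  have hexp : ∀ s : ℝ, 0 ≤ G⁻¹ i i + 2 * s * G⁻¹ i j + s ^ 2 * G⁻¹ j j := by
    intro s
    have h1 := (inv_mulVec_sq_le hc hs hG (Pi.single i 1 + s • Pi.single j 1)).1
    simp only [mulVec_add, mulVec_smul, dotProduct_add, add_dotProduct, smul_dotProduct,
      dotProduct_smul, single_one_dotProduct, mulVec_single_one, col_apply, smul_eq_mul] at h1
    rw [hsymm] at h1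
    linarith
  have hdiag : ∀ i, G⁻¹ i i ≤ 1 / c := by
    intro i
    have h1 := (inv_mulVec_sq_le hc hs hG (Pi.single i 1)).2
    simpa using h1
  have h1 := hexp 1
  have h2 := hexp (-1)
  have h3 := hdiag i
  have h4 := hdiag j
  rw [abs_le]
  constructor <;> linarith

/-- square of the Frobenius norm -/
noncomputable def fro (X : Mt n) : ℝ := ∑ i, ∑ j, X i j ^ 2

theorem fro_transpose (X : Mt n) : fro Xᵀ = fro X := by
  unfold fro
  rw [Finset.sum_comm]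
  rfl

theorem fro_nonneg (X : Mt n) : 0 ≤ fro X :=
  Finset.sum_nonneg fun i _ => Finset.sum_nonneg fun j _ => sq_nonneg _

theorem fro_mul_left {k : ℝ} {Y : Mt n} (hs : Y.IsSymm)
    (hY : ∀ p : Fin n → ℝ, p ⬝ᵥ (Y * Y) *ᵥ p ≤ k * (p ⬝ᵥ p)) (X : Mt n) :
    fro (Y * X) ≤ k * fro X := by
  have h1 : ∀ p : Fin n → ℝ, ∑ i, (Y *ᵥ p) i ^ 2 = p ⬝ᵥ (Y * Y) *ᵥ p := by
    intro p
    rw [← dot_self_eq, ← mulVec_mulVec, dotProduct_mulVec p Y]
    congr 1
    rw [← mulVec_transpose, hs]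
  rw [← fro_transpose (Y * X), ← fro_transpose X]
  unfold fro
  rw [Finset.mul_sum]
  refine Finset.sum_le_sum fun j _ => ?_
  have h2 := hY (fun i => X i j)
  rw [← h1, dot_self_eq] at h2
  exact h2

theorem fro_mul_right {k : ℝ} {Y : Mt n} (hs : Y.IsSymm)
    (hY : ∀ p : Fin n → ℝ, p ⬝ᵥ (Y * Y) *ᵥ p ≤ k * (p ⬝ᵥ p)) (X : Mt n) :
    fro (X * Y) ≤ k * fro X := by
  have h := fro_mul_left hs hY Xᵀ
  rw [fro_transpose] at h
  have h2 : Y * Xᵀ = (X * Y)ᵀ := by rw [transpose_mul, hs]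
  rw [h2, fro_transpose] at h
  exact h

/-- symmetric square root -/
theorem exists_sqrt {c : ℝ} (hc : 0 < c) {G : Mt n} (hs : G.IsSymm) (hG : LB c G) :
    ∃ R S : Mt n, R.IsSymm ∧ S.IsSymm ∧ R * R = G ∧ S * S = G⁻¹ ∧ R * S = 1 ∧ S * R = 1 := by
  open scoped MatrixOrder in
  have hpsd := posSemidef_of_LB hc.le hs hG
  have h0 : (0 : Mt n) ≤ G := hpsd.nonneg
  set R := CFC.sqrt G with hR
  have hRR : R * R = G := CFC.sqrt_mul_sqrt_self G h0
  have hRpsd : R.PosSemidef := (CFC.sqrt_nonneg G).posSemidef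
  have hRs : R.IsSymm := by
    have := hRpsd.isHermitian
    rw [Matrix.IsHermitian, Matrix.conjTranspose_eq_transpose_of_trivial] at this
    exact this
  have hdet : IsUnit R.det := by
    have h1 : R.det * R.det = G.det := by rw [← det_mul, hRR]
    have h2 := mat_det_pos hc hs hG
    rw [← h1] at h2
    exact (left_ne_zero_of_mul h2.ne').isUnit
  refine ⟨R, R⁻¹, hRs, inv_symm hRs, hRR, ?_, mul_nonsing_inv _ hdet, nonsing_inv_mul _ hdet⟩
  rw [← hRR, Matrix.mul_inv_rev]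

theorem trace_sq_eq {S B : Mt n} (hS : S.IsSymm) (hB : B.IsSymm) :
    ((S * S * B) * (S * S * B)).trace = fro (S * B * S) := by
  have h1 : ((S * S * B) * (S * S * B)).trace = ((S * B * S) * (S * B * S)).trace := by
    rw [show (S * S * B) * (S * S * B) = S * ((S * B * S) * (S * B)) by simp only [Matrix.mul_assoc],
      trace_mul_comm]
    simp only [Matrix.mul_assoc]
  rw [h1]
  have hM : (S * B * S).IsSymm := by
    rw [Matrix.IsSymm, transpose_mul, transpose_mul, hS, hB, Matrix.mul_assoc]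
  set M := S * B * S with hMdef
  unfold fro
  rw [trace]
  refine Finset.sum_congr rfl fun i _ => ?_
  rw [diag_apply, mul_apply]
  refine Finset.sum_congr rfl fun j _ => ?_
  have : M j i = M i j := hM.apply i j
  rw [this]
  ring

theorem mat_hn_ub {c : ℝ} (hc : 0 < c) {G B : Mt n} (hs : G.IsSymm) (hG : LB c G)
    (hB : B.IsSymm) :
    0 ≤ ((G⁻¹ * B) * (G⁻¹ * B)).trace ∧
      ((G⁻¹ * B) * (G⁻¹ * B)).trace ≤ (1 / c) ^ 2 * ∑ i, ∑ j, B i j ^ 2 := by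
  obtain ⟨R, S, hR, hS, hRR, hSS, hRS, hSR⟩ := exists_sqrt hc hs hG
  rw [← hSS, trace_sq_eq hS hB]
  refine ⟨fro_nonneg _, ?_⟩
  have hY : ∀ p : Fin n → ℝ, p ⬝ᵥ (S * S) *ᵥ p ≤ (1 / c) * (p ⬝ᵥ p) := by
    intro p
    rw [hSS]
    exact (inv_mulVec_sq_le hc hs hG p).2
  have h1 := fro_mul_right hS hY (S * B)
  have h2 := fro_mul_left hS hY B
  have h3 : (1 / c) * fro (S * B) ≤ (1 / c) * ((1 / c) * fro B) :=
    mul_le_mul_of_nonneg_left h2 (by positivity)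
  calc fro (S * B * S) ≤ (1 / c) * fro (S * B) := h1
    _ ≤ (1 / c) * ((1 / c) * fro B) := h3
    _ = (1 / c) ^ 2 * ∑ i, ∑ j, B i j ^ 2 := by unfold fro; ring

theorem mat_hn_lb {c K : ℝ} (hc : 0 < c) {G B : Mt n} (hs : G.IsSymm) (hG : LB c G)
    (hK : ∀ i j, |G i j| ≤ K) (hB : B.IsSymm) :
    (∑ i, ∑ j, B i j ^ 2) ≤ (n * K) ^ 2 * ((G⁻¹ * B) * (G⁻¹ * B)).trace := by
  obtain ⟨R, S, hR, hS, hRR, hSS, hRS, hSR⟩ := exists_sqrt hc hs hG
  rw [← hSS, trace_sq_eq hS hB]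
  rcases Nat.eq_zero_or_pos n with hn | hn
  · subst hn
    simp [fro]
  have hK0 : 0 ≤ K := le_trans (abs_nonneg _) (hK ⟨0, hn⟩ ⟨0, hn⟩)
  have hY : ∀ p : Fin n → ℝ, p ⬝ᵥ (R * R) *ᵥ p ≤ (n * K) * (p ⬝ᵥ p) := by
    intro p
    rw [hRR, quad_eq, dot_self_eq]
    calc ∑ i, ∑ j, p i * G i j * p j ≤ ∑ i, ∑ j, K * (|p i| * |p j|) := by
          refine Finset.sum_le_sum fun i _ => Finset.sum_le_sum fun j _ => ?_
          calc p i * G i j * p j ≤ |p i * G i j * p j| := le_abs_self _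
            _ = |G i j| * (|p i| * |p j|) := by rw [abs_mul, abs_mul]; ring
            _ ≤ K * (|p i| * |p j|) := mul_le_mul_of_nonneg_right (hK i j) (by positivity)
      _ = K * (∑ i, |p i|) ^ 2 := by
          rw [sq, Finset.sum_mul_sum, Finset.mul_sum]
          refine Finset.sum_congr rfl fun i _ => ?_
          rw [Finset.mul_sum]
      _ ≤ K * (n * ∑ i, p i ^ 2) := by
          apply mul_le_mul_of_nonneg_left _ hK0
          have := sq_sum_le_card_mul_sum_sq (s := Finset.univ) (f := fun i : Fin n => |p i|)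
          simpa using this
      _ = (n * K) * ∑ i, p i ^ 2 := by ring
  have hBeq : B = R * (S * B * S) * R := by
    have : R * (S * B * S) * R = (R * S) * B * (S * R) := by simp only [Matrix.mul_assoc]
    rw [this, hRS, hSR, Matrix.one_mul, Matrix.mul_one]
  have h1 := fro_mul_right hR hY (R * (S * B * S))
  have h2 := fro_mul_left hR hY (S * B * S)
  have h3 : (n * K) * fro (R * (S * B * S)) ≤ (n * K) * ((n * K) * fro (S * B * S)) :=
    mul_le_mul_of_nonneg_left h2 (by positivity)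
  calc ∑ i, ∑ j, B i j ^ 2 = fro (R * (S * B * S) * R) := by rw [← hBeq]; rfl
    _ ≤ (n * K) * fro (R * (S * B * S)) := h1
    _ ≤ (n * K) * ((n * K) * fro (S * B * S)) := h3
    _ = (n * K) ^ 2 * fro (S * B * S) := by ring

end MM27
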