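import Mathlib

/-!
# Maximum principle on unbounded domains (Omori-Yau, and with linear growth)

`S` closed, `f` of class `C^2` in the interior of `S`, `f ≤ m` on the frontier, `f y > m` somewhere:
there is an almost maximum point in the interior with almost vanishing gradient, small radial
derivative (of the good sign) and Hessian `≤ δ`.
-/

namespace MM27

open Set Filter Topology

/-- Second order necessary condition in one variable. -/
theorem deriv2_nonpos_of_isLocalMax {g : ℝ → ℝ} {x : ℝ} (hg : ContinuousAt g x)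
    (h : IsLocalMax g x) : deriv (deriv g) x ≤ 0 := by
  by_contra hpos
  push Not at hpos
  have h0 : deriv g x = 0 := h.deriv_eq_zero
  have hmin : IsLocalMin g x := isLocalMin_of_deriv_deriv_pos hpos h0 hg
  have hconst : g =ᶠ[𝓝 x] fun _ => g x := by
    filter_upwards [h, hmin] with y h1 h2 using le_antisymm h1 h2
  have h1 : deriv g =ᶠ[𝓝 x] deriv (fun _ => g x) := hconst.deriv
  have h2 : deriv (deriv g) x = 0 := by
    rw [h1.deriv_eq]
    simp
  linarith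

variable {E : Type*} [NormedAddCommGroup E] [NormedSpace ℝ E]

/-- derivative along a line, first order -/
theorem deriv_line {g : E → ℝ} {x v : E} {t : ℝ} (hg : DifferentiableAt ℝ g (x + t • v)) :
    HasDerivAt (fun s : ℝ => g (x + s • v)) (fderiv ℝ g (x + t • v) v) t := by
  have h1 : HasDerivAt (fun s : ℝ => x + s • v) v t := by
    have := ((hasDerivAt_id t).smul_const v).const_add x
    simpa using this
  exact hg.hasFDerivAt.comp_hasDerivAt t h1

/-- second derivative along a line -/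
theorem deriv2_line {g : E → ℝ} {x v : E} (hg : ContDiffAt ℝ 2 g x) :
    deriv (deriv (fun s : ℝ => g (x + s • v))) 0 = fderiv ℝ (fderiv ℝ g) x v v := by
  have hline : ContinuousAt (fun s : ℝ => x + s • v) 0 := by fun_prop
  have hx0 : x + (0 : ℝ) • v = x := by simp
  have hev : ∀ᶠ z in 𝓝 x, ContDiffAt ℝ 2 g z := hg.eventually (by simp)
  have hev' : ∀ᶠ s : ℝ in 𝓝 0, ContDiffAt ℝ 2 g (x + s • v) := by
    have h2 : Tendsto (fun s : ℝ => x + s • v) (𝓝 0) (𝓝 x) := by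
      have := hline.tendsto
      rwa [hx0] at this
    exact h2.eventually hev
  have h1 : deriv (fun s : ℝ => g (x + s • v)) =ᶠ[𝓝 0] fun s => fderiv ℝ g (x + s • v) v := by
    filter_upwards [hev'] with s hs
    exact (deriv_line (hs.differentiableAt (by norm_num))).deriv
  rw [h1.deriv_eq]
  have hd : DifferentiableAt ℝ (fderiv ℝ g) (x + (0 : ℝ) • v) := by
    rw [hx0]
    exact (hg.fderiv_right (m := 1) (by norm_num)).differentiableAt (by norm_num)
  have h3 : HasDerivAt (fun s : ℝ => x + s • v) v 0 := by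
    have := ((hasDerivAt_id (0 : ℝ)).smul_const v).const_add x
    simpa using this
  have h4 : HasDerivAt (fun s : ℝ => fderiv ℝ g (x + s • v)) (fderiv ℝ (fderiv ℝ g) (x + (0:ℝ) • v) v) 0 :=
    hd.hasFDerivAt.comp_hasDerivAt 0 h3
  have h5 : HasDerivAt (fun s : ℝ => fderiv ℝ g (x + s • v) v)
      (fderiv ℝ (fderiv ℝ g) (x + (0:ℝ) • v) v v) 0 := by
    have := h4.clm_apply (hasDerivAt_const (0 : ℝ) v)
    simpa using this
  rw [h5.deriv, hx0]

/-- Second order necessary condition. -/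
theorem fderiv2_nonpos_of_isLocalMax {g : E → ℝ} {x : E} (hg : ContDiffAt ℝ 2 g x)
    (h : IsLocalMax g x) (v : E) : fderiv ℝ (fderiv ℝ g) x v v ≤ 0 := by
  rw [← deriv2_line hg]
  have hline : ContinuousAt (fun s : ℝ => x + s • v) 0 := by fun_prop
  have hx0 : x + (0 : ℝ) • v = x := by simp
  have h2 : Tendsto (fun s : ℝ => x + s • v) (𝓝 0) (𝓝 x) := by
    have := hline.tendsto
    rwa [hx0] at this
  apply deriv2_nonpos_of_isLocalMax
  · have : ContinuousAt g (x + (0:ℝ) • v) := by rw [hx0]; exact hg.continuousAt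
    exact ContinuousAt.comp (f := fun s : ℝ => x + s • v) (g := g) this hline
  · have h3 : ∀ᶠ s : ℝ in 𝓝 0, g (x + s • v) ≤ g x := h2.eventually h
    unfold IsLocalMax IsMaxFilter
    filter_upwards [h3] with s hs
    simpa using hs

/-- comparison of derivatives at a local maximum of `f - e * b` -/
theorem compare_of_isLocalMax {f b : E → ℝ} {x : E} {e : ℝ} (hf : ContDiffAt ℝ 2 f x)
    (hb : ContDiffAt ℝ 2 b x) (h : IsLocalMax (fun z => f z - e * b z) x) :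
    (∀ v, fderiv ℝ f x v = e * fderiv ℝ b x v) ∧
      ∀ v, fderiv ℝ (fderiv ℝ f) x v v ≤ e * fderiv ℝ (fderiv ℝ b) x v v := by
  have hfb : ContDiffAt ℝ 2 (fun z => f z - e * b z) x := hf.sub (contDiffAt_const.mul hb)
  have hev : ∀ᶠ z in 𝓝 x, ContDiffAt ℝ 2 f z := hf.eventually (by simp)
  have hev' : ∀ᶠ z in 𝓝 x, ContDiffAt ℝ 2 b z := hb.eventually (by simp)
  have h1 : fderiv ℝ (fun z => f z - e * b z) =ᶠ[𝓝 x] fun z => fderiv ℝ f z - e • fderiv ℝ b z := by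
    filter_upwards [hev, hev'] with z h1 h2
    have hd1 : DifferentiableAt ℝ f z := h1.differentiableAt (by norm_num)
    have hd2 : DifferentiableAt ℝ b z := h2.differentiableAt (by norm_num)
    have h3 : HasFDerivAt (fun z => f z - e * b z) (fderiv ℝ f z - e • fderiv ℝ b z) z :=
      hd1.hasFDerivAt.sub (hd2.hasFDerivAt.const_mul e)
    exact h3.fderiv
  have h0 := h.fderiv_eq_zero
  constructor
  · intro v
    have h2 := h1.eq_of_nhds
    rw [h0] at h2
    have h3 := congrArg (fun l : E →L[ℝ] ℝ => l v) h2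
    simp at h3
    linarith
  · intro v
    have h2 := fderiv2_nonpos_of_isLocalMax hfb h v
    rw [h1.fderiv_eq] at h2
    have hd1 : DifferentiableAt ℝ (fderiv ℝ f) x :=
      (hf.fderiv_right (m := 1) (by norm_num)).differentiableAt (by norm_num)
    have hd2 : DifferentiableAt ℝ (fderiv ℝ b) x :=
      (hb.fderiv_right (m := 1) (by norm_num)).differentiableAt (by norm_num)
    have h3 : HasFDerivAt (fun z => fderiv ℝ f z - e • fderiv ℝ b z)
        (fderiv ℝ (fderiv ℝ f) x - e • fderiv ℝ (fderiv ℝ b) x) x :=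
      hd1.hasFDerivAt.sub (hd2.hasFDerivAt.const_smul e)
    rw [h3.fderiv] at h2
    simp at h2
    linarith

section barrier

variable {F : Type*} [NormedAddCommGroup F] [InnerProductSpace ℝ F]

open scoped RealInnerProductSpace

theorem quad_hasDerivAt (a b c s : ℝ) :
    HasDerivAt (fun s : ℝ => a + 2 * s * b + s ^ 2 * c) (2 * b + 2 * s * c) s := by
  have h3 : HasDerivAt (fun s : ℝ => 2 * s * b) (2 * 1 * b) s :=
    ((hasDerivAt_id s).const_mul 2).mul_const _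
  have h4 : HasDerivAt (fun s : ℝ => s ^ 2 * c) (((2 : ℕ) * s ^ (2 - 1) * 1) * c) s :=
    ((hasDerivAt_id s).pow 2).mul_const _
  have h5 : HasDerivAt (fun s : ℝ => a + 2 * s * b + s ^ 2 * c)
      (2 * 1 * b + ((2 : ℕ) * s ^ (2 - 1) * 1) * c) s := (h3.const_add a).add h4
  convert h5 using 1
  norm_num

/-- the logarithmic barrier -/
noncomputable def lbar (x : F) : ℝ := Real.log (1 + ‖x‖ ^ 2)

theorem one_add_pos (x : F) : 0 < 1 + ‖x‖ ^ 2 := by positivity

theorem lbar_contDiff : ContDiff ℝ 2 (lbar : F → ℝ) := by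
  unfold lbar
  exact (contDiff_const.add (contDiff_norm_sq ℝ)).log fun x => (one_add_pos x).ne'

theorem lbar_nonneg (x : F) : 0 ≤ lbar x := Real.log_nonneg (by nlinarith [sq_nonneg ‖x‖])

theorem lbar_line (x v : F) (s : ℝ) :
    HasDerivAt (fun s : ℝ => lbar (x + s • v))
      ((2 * ⟪x, v⟫ + 2 * s * ‖v‖ ^ 2) / (1 + (‖x‖ ^ 2 + 2 * s * ⟪x, v⟫ + s ^ 2 * ‖v‖ ^ 2))) s := by
  have h0 : ∀ s : ℝ, ‖x + s • v‖ ^ 2 = ‖x‖ ^ 2 + 2 * s * ⟪x, v⟫ + s ^ 2 * ‖v‖ ^ 2 := by
    intro s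
    rw [norm_add_sq_real, inner_smul_right, norm_smul, mul_pow, Real.norm_eq_abs, sq_abs]
    ring
  have h1 : (fun s : ℝ => lbar (x + s • v)) =
      fun s : ℝ => Real.log (1 + (‖x‖ ^ 2 + 2 * s * ⟪x, v⟫ + s ^ 2 * ‖v‖ ^ 2)) := by
    funext s
    rw [lbar, h0]
  rw [h1]
  have hpos : 1 + (‖x‖ ^ 2 + 2 * s * ⟪x, v⟫ + s ^ 2 * ‖v‖ ^ 2) ≠ 0 := by
    rw [← h0]; exact (one_add_pos _).ne'
  exact HasDerivAt.log ((quad_hasDerivAt (‖x‖ ^ 2) ⟪x, v⟫ (‖v‖ ^ 2) s).const_add 1) hpos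

theorem lbar_fderiv (x v : F) : fderiv ℝ (lbar : F → ℝ) x v = 2 * ⟪x, v⟫ / (1 + ‖x‖ ^ 2) := by
  have h1 := lbar_line x v 0
  have h2 : HasDerivAt (fun s : ℝ => lbar (x + s • v)) (fderiv ℝ (lbar : F → ℝ) (x + (0:ℝ) • v) v) 0 :=
    deriv_line ((lbar_contDiff (F := F)).contDiffAt.differentiableAt (by norm_num))
  have h3 := h1.unique h2
  simp at h3
  rw [← h3]

theorem lbar_fderiv2 (x v : F) :
    fderiv ℝ (fderiv ℝ (lbar : F → ℝ)) x v v =
      2 * ‖v‖ ^ 2 / (1 + ‖x‖ ^ 2) - (2 * ⟪x, v⟫) ^ 2 / (1 + ‖x‖ ^ 2) ^ 2 := by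
  rw [← deriv2_line (lbar_contDiff (F := F)).contDiffAt]
  have h1 : deriv (fun s : ℝ => lbar (x + s • v)) = fun s : ℝ =>
      (2 * ⟪x, v⟫ + 2 * s * ‖v‖ ^ 2) / (1 + (‖x‖ ^ 2 + 2 * s * ⟪x, v⟫ + s ^ 2 * ‖v‖ ^ 2)) := by
    funext s
    exact (lbar_line x v s).deriv
  rw [h1]
  have hp := (one_add_pos x).ne'
  have h2 : HasDerivAt (fun s : ℝ => 2 * ⟪x, v⟫ + 2 * s * ‖v‖ ^ 2) (2 * 1 * ‖v‖ ^ 2) 0 :=
    (((hasDerivAt_id (0:ℝ)).const_mul 2).mul_const _).const_add _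
  have h5 := (quad_hasDerivAt (‖x‖ ^ 2) ⟪x, v⟫ (‖v‖ ^ 2) 0).const_add 1
  have h6 : HasDerivAt (fun s : ℝ => (2 * ⟪x, v⟫ + 2 * s * ‖v‖ ^ 2) /
      (1 + (‖x‖ ^ 2 + 2 * s * ⟪x, v⟫ + s ^ 2 * ‖v‖ ^ 2))) _ 0 := h2.div h5 (by simpa using hp)
  rw [h6.deriv]
  simp only [mul_zero, zero_mul, add_zero, ne_eq, OfNat.ofNat_ne_zero, not_false_eq_true, zero_pow,
    mul_one]
  field_simp

theorem lbar_fderiv2_le (x v : F) : fderiv ℝ (fderiv ℝ (lbar : F → ℝ)) x v v ≤ 2 * ‖v‖ ^ 2 := by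
  rw [lbar_fderiv2]
  have h1 : 2 * ‖v‖ ^ 2 / (1 + ‖x‖ ^ 2) ≤ 2 * ‖v‖ ^ 2 := by
    rw [div_le_iff₀ (one_add_pos x)]
    nlinarith [sq_nonneg ‖v‖, mul_nonneg (sq_nonneg ‖v‖) (sq_nonneg ‖x‖)]
  have h2 : 0 ≤ (2 * ⟪x, v⟫) ^ 2 / (1 + ‖x‖ ^ 2) ^ 2 := by positivity
  linarith

theorem lbar_fderiv_abs (x v : F) : |fderiv ℝ (lbar : F → ℝ) x v| ≤ ‖v‖ := by
  rw [lbar_fderiv, abs_div, abs_of_pos (one_add_pos x), div_le_iff₀ (one_add_pos x), abs_mul]
  have h1 := abs_real_inner_le_norm x v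
  have h2 : |(2 : ℝ)| = 2 := abs_of_pos (by norm_num)
  rw [h2]
  nlinarith [norm_nonneg v, mul_nonneg (norm_nonneg v) (sq_nonneg (‖x‖ - 1))]

theorem lbar_fderiv_self (x : F) :
    0 ≤ fderiv ℝ (lbar : F → ℝ) x x ∧ fderiv ℝ (lbar : F → ℝ) x x ≤ 2 := by
  rw [lbar_fderiv, real_inner_self_eq_norm_sq]
  constructor
  · positivity
  · rw [div_le_iff₀ (one_add_pos x)]
    nlinarith [sq_nonneg ‖x‖]

/-- the square barrier -/
theorem sq_fderiv (x v : F) : fderiv ℝ (fun z : F => ‖z‖ ^ 2) x v = 2 * ⟪x, v⟫ := by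
  have := (hasStrictFDerivAt_norm_sq x).hasFDerivAt.fderiv
  rw [this]
  simp

theorem sq_fderiv2 (x v : F) : fderiv ℝ (fderiv ℝ (fun z : F => ‖z‖ ^ 2)) x v v = 2 * ‖v‖ ^ 2 := by
  have h : ContDiff ℝ 2 (fun z : F => ‖z‖ ^ 2) := contDiff_norm_sq ℝ
  rw [← deriv2_line h.contDiffAt]
  have h0 : (fun s : ℝ => ‖x + s • v‖ ^ 2) =
      fun s : ℝ => ‖x‖ ^ 2 + 2 * s * ⟪x, v⟫ + s ^ 2 * ‖v‖ ^ 2 := by
    funext s
    rw [norm_add_sq_real, inner_smul_right, norm_smul, mul_pow, Real.norm_eq_abs, sq_abs]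
    ring
  rw [h0]
  have h1 : deriv (fun s : ℝ => ‖x‖ ^ 2 + 2 * s * ⟪x, v⟫ + s ^ 2 * ‖v‖ ^ 2) =
      fun s => 2 * ⟪x, v⟫ + 2 * s * ‖v‖ ^ 2 := by
    funext s
    exact (quad_hasDerivAt (‖x‖ ^ 2) ⟪x, v⟫ (‖v‖ ^ 2) s).deriv
  rw [h1]
  have h2 : HasDerivAt (fun s : ℝ => 2 * ⟪x, v⟫ + 2 * s * ‖v‖ ^ 2) (2 * 1 * ‖v‖ ^ 2) 0 :=
    (((hasDerivAt_id (0:ℝ)).const_mul 2).mul_const _).const_add _
  rw [h2.deriv]
  ring

end barrier

section maxprinciple

variable {F : Type*} [NormedAddCommGroup F] [InnerProductSpace ℝ F] [FiniteDimensional ℝ F]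

/-- Maximum of `f - e * b` over a closed set is attained when `f - e*b` tends to `-∞`. -/
theorem exists_max_of_tendsto {S : Set F} (hS : IsClosed S) {g : F → ℝ} (hg : ContinuousOn g S)
    (hlim : ∀ K : ℝ, ∃ R : ℝ, ∀ x ∈ S, R < ‖x‖ → g x < K) {y : F} (hy : y ∈ S) :
    ∃ x ∈ S, ∀ z ∈ S, g z ≤ g x := by
  obtain ⟨R, hR⟩ := hlim (g y)
  have hcomp : IsCompact (S ∩ Metric.closedBall 0 (max R ‖y‖)) :=
    (isCompact_closedBall 0 _).inter_left hS
  have hne : (S ∩ Metric.closedBall 0 (max R ‖y‖)).Nonempty :=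
    ⟨y, hy, by simp⟩
  obtain ⟨x, hx, hmax⟩ := hcomp.exists_isMaxOn hne (hg.mono inter_subset_left)
  refine ⟨x, hx.1, fun z hz => ?_⟩
  by_cases hzR : ‖z‖ ≤ max R ‖y‖
  · exact hmax ⟨hz, by simpa using hzR⟩
  · push Not at hzR
    have h1 : g z < g y := hR z hz (lt_of_le_of_lt (le_max_left _ _) hzR)
    have h2 : g y ≤ g x := hmax ⟨hy, by simp⟩
    linarith

/-- **Omori-Yau maximum principle**, bounded functions. -/
theorem omoriYau {S : Set F} (hS : IsClosed S) {f : F → ℝ} (hf : ContinuousOn f S)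
    (hf2 : ∀ x ∈ interior S, ContDiffAt ℝ 2 f x) {M m : ℝ} (hM : ∀ x ∈ S, f x ≤ M)
    (hm : ∀ x ∈ frontier S, f x ≤ m) {y : F} (hy : y ∈ S) (hym : m < f y) {δ : ℝ} (hδ : 0 < δ) :
    ∃ x ∈ interior S, (∀ z ∈ S, f z ≤ f x + δ) ∧ m < f x ∧ f y ≤ f x + δ ∧
      (∀ v, |fderiv ℝ f x v| ≤ δ * ‖v‖) ∧ 0 ≤ fderiv ℝ f x x ∧ fderiv ℝ f x x ≤ δ ∧
      ∀ v, fderiv ℝ (fderiv ℝ f) x v v ≤ δ * ‖v‖ ^ 2 := by
  -- choose an almost maximum point `y'`
  obtain ⟨y', hy', hy'm, hy'M⟩ : ∃ y' ∈ S, m < f y' ∧ ∀ z ∈ S, f z ≤ f y' + δ / 2 := by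
    set T : Set ℝ := f '' S with hT
    have hTne : T.Nonempty := ⟨f y, y, hy, rfl⟩
    have hTb : BddAbove T := ⟨M, by rintro _ ⟨z, hz, rfl⟩; exact hM z hz⟩
    set s := sSup T with hs
    have hys : f y ≤ s := le_csSup hTb ⟨y, hy, rfl⟩
    have hlt : max m (s - δ / 2) < s := max_lt (lt_of_lt_of_le hym hys) (by linarith)
    obtain ⟨_, ⟨y', hy', rfl⟩, h⟩ := exists_lt_of_lt_csSup hTne hlt
    refine ⟨y', hy', lt_of_le_of_lt (le_max_left _ _) h, fun z hz => ?_⟩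
    have h1 : f z ≤ s := le_csSup hTb ⟨z, hz, rfl⟩
    have h2 : s - δ / 2 < f y' := lt_of_le_of_lt (le_max_right _ _) h
    linarith
  set L := lbar y' with hL
  have hL0 : 0 ≤ L := lbar_nonneg y'
  set gap := min (f y' - m) (δ / 2) with hgap
  have hgap0 : 0 < gap := lt_min (by linarith) (by linarith)
  set e := min (δ / 2) (gap / (2 * (1 + L))) with he
  have he0 : 0 < e := lt_min (by linarith) (by positivity)
  have heL : e * L < gap := by
    have h1 : e ≤ gap / (2 * (1 + L)) := min_le_right _ _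
    have h2 : gap / (2 * (1 + L)) * L < gap := by
      rw [div_mul_eq_mul_div, div_lt_iff₀ (by positivity)]
      nlinarith
    calc e * L ≤ gap / (2 * (1 + L)) * L := mul_le_mul_of_nonneg_right h1 hL0
      _ < gap := h2
  have heδ : e ≤ δ / 2 := min_le_left _ _
  -- maximum of `f - e * lbar`
  obtain ⟨x, hx, hmax⟩ : ∃ x ∈ S, ∀ z ∈ S, f z - e * lbar z ≤ f x - e * lbar x := by
    apply exists_max_of_tendsto hS (g := fun z => f z - e * lbar z) _ _ hy
    · exact hf.sub (continuousOn_const.mul (lbar_contDiff (F := F)).continuous.continuousOn)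
    · intro K
      have h1 : Tendsto (fun r : ℝ => M - e * Real.log (1 + r ^ 2)) atTop atBot := by
        apply tendsto_atBot_add_const_left
        apply tendsto_neg_atTop_atBot.comp
        apply Tendsto.const_mul_atTop he0
        apply Real.tendsto_log_atTop.comp
        apply tendsto_atTop_add_const_left
        exact tendsto_pow_atTop (by norm_num)
      obtain ⟨R, hR⟩ := (tendsto_atTop_atBot.mp h1) (K - 1)
      refine ⟨max R 0, fun x hx hRx => ?_⟩
      have h2 := hR ‖x‖ (le_trans (le_max_left _ _) hRx.le)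
      have h3 := hM x hx
      simp only [lbar]
      linarith
  have hxy := hmax y' hy'
  have hfx : f y' - e * L ≤ f x := by
    have := mul_nonneg he0.le (lbar_nonneg x)
    linarith
  have hxm : m < f x := by
    have h1 : gap ≤ f y' - m := min_le_left _ _
    linarith
  have hxint : x ∈ interior S := by
    by_contra hcon
    have : x ∈ frontier S := by
      rw [frontier, hS.closure_eq]
      exact ⟨hx, hcon⟩
    have := hm x this
    linarith
  have hloc : IsLocalMax (fun z => f z - e * lbar z) x := by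
    filter_upwards [mem_interior_iff_mem_nhds.mp hxint] with z hz using hmax z hz
  obtain ⟨h1, h2⟩ := compare_of_isLocalMax (hf2 x hxint) (lbar_contDiff (F := F)).contDiffAt hloc
  have hgd : gap ≤ δ / 2 := min_le_right _ _
  refine ⟨x, hxint, fun z hz => by linarith [hy'M z hz], hxm, by linarith [hy'M y hy], fun v => ?_, ?_, ?_, fun v => ?_⟩
  · rw [h1, abs_mul, abs_of_pos he0]
    have := lbar_fderiv_abs x v
    have h3 : e * |fderiv ℝ (lbar : F → ℝ) x v| ≤ e * ‖v‖ := mul_le_mul_of_nonneg_left this he0.le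
    have h4 : e * ‖v‖ ≤ δ * ‖v‖ := mul_le_mul_of_nonneg_right (by linarith) (norm_nonneg v)
    linarith
  · rw [h1]
    exact mul_nonneg he0.le (lbar_fderiv_self x).1
  · rw [h1]
    have := (lbar_fderiv_self x).2
    nlinarith
  · have h3 := h2 v
    have h4 := lbar_fderiv2_le x v
    have h5 : e * fderiv ℝ (fderiv ℝ (lbar : F → ℝ)) x v v ≤ e * (2 * ‖v‖ ^ 2) :=
      mul_le_mul_of_nonneg_left h4 he0.le
    nlinarith [sq_nonneg ‖v‖]

/-- Maximum principle for functions of at most linear growth; barrier `e |x|^2`. -/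
theorem maxPrinciple_linear {S : Set F} (hS : IsClosed S) {f : F → ℝ} (hf : ContinuousOn f S)
    (hf2 : ∀ x ∈ interior S, ContDiffAt ℝ 2 f x) {C m : ℝ} (hM : ∀ x ∈ S, f x ≤ C * (1 + ‖x‖))
    (hm : ∀ x ∈ frontier S, f x ≤ m) {y : F} (hy : y ∈ S) (hym : m < f y) {δ : ℝ} (hδ : 0 < δ) :
    ∃ x ∈ interior S, m < f x ∧ f y ≤ f x + δ ∧ 0 ≤ fderiv ℝ f x x ∧
      ∀ v, fderiv ℝ (fderiv ℝ f) x v v ≤ δ * ‖v‖ ^ 2 := by
  set L := ‖y‖ ^ 2 with hL
  have hL0 : 0 ≤ L := by positivity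
  set gap := min (f y - m) δ with hgap
  have hgap0 : 0 < gap := lt_min (by linarith) hδ
  set e := min (δ / 2) (gap / (2 * (1 + L))) with he
  have he0 : 0 < e := lt_min (by linarith) (by positivity)
  have heL : e * L < gap := by
    have h1 : e ≤ gap / (2 * (1 + L)) := min_le_right _ _
    have h2 : gap / (2 * (1 + L)) * L < gap := by
      rw [div_mul_eq_mul_div, div_lt_iff₀ (by positivity)]
      nlinarith
    calc e * L ≤ gap / (2 * (1 + L)) * L := mul_le_mul_of_nonneg_right h1 hL0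
      _ < gap := h2
  have heδ : e ≤ δ / 2 := min_le_left _ _
  have hsq : ContDiff ℝ 2 (fun z : F => ‖z‖ ^ 2) := contDiff_norm_sq ℝ
  obtain ⟨x, hx, hmax⟩ : ∃ x ∈ S, ∀ z ∈ S, f z - e * ‖z‖ ^ 2 ≤ f x - e * ‖x‖ ^ 2 := by
    apply exists_max_of_tendsto hS (g := fun z => f z - e * ‖z‖ ^ 2) _ _ hy
    · exact hf.sub (continuousOn_const.mul hsq.continuous.continuousOn)
    · intro K
      refine ⟨max 1 ((|C| * 2 + |K| + 1) / e), fun x hx hRx => ?_⟩
      have h2 := hM x hx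
      have h3 : 1 < ‖x‖ := lt_of_le_of_lt (le_max_left _ _) hRx
      have h4 : (|C| * 2 + |K| + 1) / e < ‖x‖ := lt_of_le_of_lt (le_max_right _ _) hRx
      rw [div_lt_iff₀ he0] at h4
      have h5 : C * (1 + ‖x‖) ≤ |C| * (2 * ‖x‖) := by
        have h6 : C * (1 + ‖x‖) ≤ |C| * (1 + ‖x‖) :=
          mul_le_mul_of_nonneg_right (le_abs_self C) (by positivity)
        have h7 : |C| * (1 + ‖x‖) ≤ |C| * (2 * ‖x‖) :=
          mul_le_mul_of_nonneg_left (by linarith) (abs_nonneg C)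
        linarith
      have h6 : (|C| * 2 + |K| + 1) * ‖x‖ < ‖x‖ * e * ‖x‖ :=
        mul_lt_mul_of_pos_right h4 (by linarith)
      have h7 : |K| ≤ |K| * ‖x‖ := le_mul_of_one_le_right (abs_nonneg K) h3.le
      have h8 := neg_abs_le K
      show f x - e * ‖x‖ ^ 2 < K
      nlinarith
  have hxy := hmax y hy
  have hfx : f y - e * L ≤ f x := by
    have : 0 ≤ e * ‖x‖ ^ 2 := by positivity
    linarith
  have hxm : m < f x := by
    have h1 : gap ≤ f y - m := min_le_left _ _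
    linarith
  have hxint : x ∈ interior S := by
    by_contra hcon
    have : x ∈ frontier S := by
      rw [frontier, hS.closure_eq]
      exact ⟨hx, hcon⟩
    have := hm x this
    linarith
  have hloc : IsLocalMax (fun z => f z - e * ‖z‖ ^ 2) x := by
    filter_upwards [mem_interior_iff_mem_nhds.mp hxint] with z hz using hmax z hz
  obtain ⟨h1, h2⟩ := compare_of_isLocalMax (b := fun z : F => ‖z‖ ^ 2) (hf2 x hxint) hsq.contDiffAt hloc
  have hgd : gap ≤ δ := min_le_right _ _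
  refine ⟨x, hxint, hxm, by linarith, ?_, fun v => ?_⟩
  · rw [h1, sq_fderiv, real_inner_self_eq_norm_sq]
    positivity
  · have h3 := h2 v
    rw [sq_fderiv2] at h3
    nlinarith [sq_nonneg ‖v‖]

end maxprinciple

end MM27
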