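import Pool.Agent.Helper44.CM.Defs
import Pool.Agent.Helper27.MM.OmoriYau

/-!
# The maximum principle of `OmoriYau.lean` in the conventions of route CM

* `tr2_nonneg`: `tr(τ P) ≥ 0` for positive matrices.
* `hess_quad`: `Σ v_i (D²f)_ij v_j = fderiv (fderiv f) x v v`.
* `LL_le_of`: `L f ≤ δ tr τ` at an almost maximum point.
* `maxCM`: almost maximum points in terms of `LL τ f`.
* `maxCM_le`: if `L f ≥ ρ(f)` where `f > m`, `ρ` monotone and positive on `(m, ∞)`, then `f ≤ m`.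
-/

namespace MM27

open Set Filter Topology CM

variable {n : ℕ}

theorem tr2_nonneg {τ P : Mt n} (hs : τ.IsSymm) (h : LB 0 τ) (hP : LB 0 P) : 0 ≤ tr2 τ P := by
  have hpsd : τ.PosSemidef := by
    apply Matrix.PosSemidef.of_dotProduct_mulVec_nonneg
    · rw [Matrix.IsHermitian, Matrix.conjTranspose_eq_transpose_of_trivial]
      exact hs
    · intro v
      have h1 := h v
      simp only [zero_mul] at h1
      have h2 : star v ⬝ᵥ τ.mulVec v = ∑ i, ∑ j, v i * τ i j * v j := by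
        simp only [dotProduct, Matrix.mulVec, star_trivial]
        refine Finset.sum_congr rfl fun i _ => ?_
        rw [Finset.mul_sum]
        exact Finset.sum_congr rfl fun j _ => by ring
      rw [h2]
      exact h1
  obtain ⟨B, hB⟩ : ∃ B : Mt n, τ = B.conjTranspose * B := by
    open scoped MatrixOrder in
    obtain ⟨B, hB⟩ := CStarAlgebra.nonneg_iff_eq_star_mul_self.mp hpsd.nonneg
    exact ⟨B, hB⟩
  have h3 : tr2 τ P = ∑ k, ∑ i, ∑ j, B k i * P i j * B k j := by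
    have h4 : ∀ i j, τ i j * P i j = ∑ k, B k i * P i j * B k j := by
      intro i j
      rw [hB, Matrix.mul_apply, Finset.sum_mul]
      refine Finset.sum_congr rfl fun k _ => ?_
      simp [Matrix.conjTranspose_apply]
      ring
    unfold tr2
    simp only [h4]
    calc ∑ i, ∑ j, ∑ k, B k i * P i j * B k j = ∑ i, ∑ k, ∑ j, B k i * P i j * B k j :=
          Finset.sum_congr rfl fun i _ => Finset.sum_comm
      _ = ∑ k, ∑ i, ∑ j, B k i * P i j * B k j := Finset.sum_comm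
  rw [h3]
  refine Finset.sum_nonneg fun k _ => ?_
  have := hP (fun i => B k i)
  simpa using this

theorem pd_eq_fderiv (i : Fin n) (f : E n → ℝ) (x : E n) :
    pd i f x = fderiv ℝ f x (EuclideanSpace.single i (1 : ℝ)) := rfl

theorem sum_single (v : E n) : v = ∑ i, v i • EuclideanSpace.single i (1 : ℝ) := by
  have := (EuclideanSpace.basisFun (Fin n) ℝ).sum_repr v
  simpa using this.symm

theorem fderiv_sum_pd (f : E n → ℝ) (x v : E n) : fderiv ℝ f x v = ∑ i, v i * pd i f x := by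
  conv_lhs => rw [sum_single v]
  rw [map_sum]
  exact Finset.sum_congr rfl fun i _ => by rw [map_smul, smul_eq_mul]; rfl

theorem hess_apply {f : E n → ℝ} {x : E n} (hf : ContDiffAt ℝ 2 f x) (i j : Fin n) :
    hess f x i j = fderiv ℝ (fderiv ℝ f) x (EuclideanSpace.single i (1 : ℝ))
      (EuclideanSpace.single j (1 : ℝ)) := by
  have hd : DifferentiableAt ℝ (fderiv ℝ f) x :=
    (hf.fderiv_right (m := 1) (by norm_num)).differentiableAt (by norm_num)
  have h1 : HasFDerivAt (fun y => fderiv ℝ f y (EuclideanSpace.single j (1 : ℝ)))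
      ((ContinuousLinearMap.apply ℝ ℝ (EuclideanSpace.single j (1 : ℝ))).comp
        (fderiv ℝ (fderiv ℝ f) x)) x :=
    (ContinuousLinearMap.apply ℝ ℝ (EuclideanSpace.single j (1 : ℝ))).hasFDerivAt.comp x
      hd.hasFDerivAt
  show fderiv ℝ (fun y => fderiv ℝ f y (EuclideanSpace.single j (1 : ℝ))) x _ = _
  rw [h1.fderiv]
  rfl

theorem hess_quad {f : E n → ℝ} {x : E n} (hf : ContDiffAt ℝ 2 f x) (v : E n) :
    ∑ i, ∑ j, v i * hess f x i j * v j = fderiv ℝ (fderiv ℝ f) x v v := by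
  have h1 : fderiv ℝ (fderiv ℝ f) x v =
      ∑ i, v i • fderiv ℝ (fderiv ℝ f) x (EuclideanSpace.single i (1 : ℝ)) := by
    conv_lhs => rw [sum_single v]
    rw [map_sum]
    exact Finset.sum_congr rfl fun i _ => by rw [map_smul]
  have h2 : ∀ l : E n →L[ℝ] ℝ, l v = ∑ j, v j * l (EuclideanSpace.single j (1 : ℝ)) := by
    intro l
    conv_lhs => rw [sum_single v]
    rw [map_sum]
    exact Finset.sum_congr rfl fun i _ => by rw [map_smul, smul_eq_mul]
  rw [h1, ContinuousLinearMap.sum_apply]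
  refine Finset.sum_congr rfl fun i _ => ?_
  rw [ContinuousLinearMap.smul_apply, smul_eq_mul, h2, Finset.mul_sum]
  refine Finset.sum_congr rfl fun j _ => ?_
  rw [hess_apply hf]
  ring

/-- `L f ≤ δ tr τ` at a point with `D²f ≤ δ` and non-negative radial derivative. -/
theorem LL_le_of {τ : E n → Mt n} {f : E n → ℝ} {x : E n} {δ : ℝ} (hs : (τ x).IsSymm)
    (hp : LB 0 (τ x)) (hf : ContDiffAt ℝ 2 f x) (h0 : 0 ≤ fderiv ℝ f x x)
    (h2 : ∀ v, fderiv ℝ (fderiv ℝ f) x v v ≤ δ * ‖v‖ ^ 2) :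
    LL τ f x ≤ δ * ∑ i, τ x i i := by
  have h3 : 0 ≤ tr2 (τ x) (δ • (1 : Mt n) - hess f x) := by
    apply tr2_nonneg hs hp
    intro v
    have h4 := h2 (WithLp.toLp 2 v)
    rw [← hess_quad hf] at h4
    have h5 : ‖(WithLp.toLp 2 v : E n)‖ ^ 2 = ∑ i, v i ^ 2 := by
      rw [EuclideanSpace.norm_sq_eq]
      simp
    rw [h5] at h4
    have h6 : ∑ i, ∑ j, v i * (δ • (1 : Mt n) - hess f x) i j * v j =
        δ * ∑ i, v i ^ 2 - ∑ i, ∑ j, v i * hess f x i j * v j := by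
      rw [Finset.mul_sum, ← Finset.sum_sub_distrib]
      refine Finset.sum_congr rfl fun i _ => ?_
      have h7 : ∀ j, v i * (δ • (1 : Mt n) - hess f x) i j * v j =
          (if i = j then δ * v i * v j else 0) - v i * hess f x i j * v j := by
        intro j
        rw [Matrix.sub_apply, Matrix.smul_apply, Matrix.one_apply]
        split_ifs
        · simp; ring
        · simp
      rw [Finset.sum_congr rfl fun j _ => h7 j, Finset.sum_sub_distrib,
        Finset.sum_ite_eq Finset.univ i fun j => δ * v i * v j]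
      simp
      ring
    rw [h6]
    have h8 : ∑ i, ∑ j, v i * hess f x i j * v j =
      ∑ i, ∑ j, (WithLp.toLp 2 v : E n) i * hess f x i j * (WithLp.toLp 2 v : E n) j := rfl
    linarith
  have h4 : tr2 (τ x) (δ • (1 : Mt n) - hess f x) = δ * ∑ i, τ x i i - tr2 (τ x) (hess f x) := by
    unfold tr2
    rw [Finset.mul_sum, ← Finset.sum_sub_distrib]
    refine Finset.sum_congr rfl fun i _ => ?_
    have h7 : ∀ j, τ x i j * (δ • (1 : Mt n) - hess f x) i j =
        (if i = j then δ * τ x i j else 0) - τ x i j * hess f x i j := by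
      intro j
      rw [Matrix.sub_apply, Matrix.smul_apply, Matrix.one_apply]
      split_ifs
      · simp; ring
      · simp
    rw [Finset.sum_congr rfl fun j _ => h7 j, Finset.sum_sub_distrib,
      Finset.sum_ite_eq Finset.univ i fun j => δ * τ x i j]
    simp
  have h5 : LL τ f x = tr2 (τ x) (hess f x) - fderiv ℝ f x x := rfl
  linarith

/-- **Maximum principle**, bounded functions, in terms of `L`. -/
theorem maxCM {S : Set (E n)} (hS : IsClosed S) {f : E n → ℝ} (hf : ContinuousOn f S)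
    (hf2 : ∀ x ∈ interior S, ContDiffAt ℝ 2 f x) {M m : ℝ} (hM : ∀ x ∈ S, f x ≤ M)
    (hm : ∀ x ∈ frontier S, f x ≤ m) {y : E n} (hy : y ∈ S) (hym : m < f y)
    {τ : E n → Mt n} {T : ℝ} (hs : ∀ x ∈ interior S, (τ x).IsSymm)
    (hp : ∀ x ∈ interior S, LB 0 (τ x)) (hT : ∀ x ∈ interior S, ∑ i, τ x i i ≤ T)
    {δ : ℝ} (hδ : 0 < δ) :
    ∃ x ∈ interior S, (∀ z ∈ S, f z ≤ f x + δ) ∧ m < f x ∧ f y ≤ f x + δ ∧
      (∀ v, |fderiv ℝ f x v| ≤ δ * ‖v‖) ∧ 0 ≤ fderiv ℝ f x x ∧ fderiv ℝ f x x ≤ δ ∧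
      LL τ f x ≤ δ := by
  have hT0 : 0 < 1 + |T| := by positivity
  obtain ⟨x, hx, h1, h2, h3, h4, h5, h6, h7⟩ := omoriYau hS hf hf2 hM hm hy hym
    (δ := δ / (1 + |T|)) (by positivity)
  have hle : δ / (1 + |T|) ≤ δ := div_le_self hδ.le (by linarith [abs_nonneg T])
  refine ⟨x, hx, fun z hz => (h1 z hz).trans (by linarith), h2, h3.trans (by linarith),
    fun v => (h4 v).trans (mul_le_mul_of_nonneg_right hle (norm_nonneg v)), h5, h6.trans hle, ?_⟩
  have h8 := LL_le_of (hs x hx) (hp x hx) (hf2 x hx) h5 h7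
  have h9 : δ / (1 + |T|) * ∑ i, τ x i i ≤ δ / (1 + |T|) * (1 + |T|) := by
    apply mul_le_mul_of_nonneg_left _ (by positivity)
    have := hT x hx
    have := le_abs_self T
    linarith
  have h10 : δ / (1 + |T|) * (1 + |T|) = δ := div_mul_cancel₀ _ hT0.ne'
  linarith

/-- **Comparison form**: `L f ≥ ρ(f)` where `f > m` implies `f ≤ m`. -/
theorem maxCM_le {S : Set (E n)} (hS : IsClosed S) {f : E n → ℝ} (hf : ContinuousOn f S)
    (hf2 : ∀ x ∈ interior S, ContDiffAt ℝ 2 f x) {M m : ℝ} (hM : ∀ x ∈ S, f x ≤ M)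
    (hm : ∀ x ∈ frontier S, f x ≤ m)
    {τ : E n → Mt n} {T : ℝ} (hs : ∀ x ∈ interior S, (τ x).IsSymm)
    (hp : ∀ x ∈ interior S, LB 0 (τ x)) (hT : ∀ x ∈ interior S, ∑ i, τ x i i ≤ T)
    {ρ : ℝ → ℝ} (hρ : ∀ s t, m < s → s ≤ t → ρ s ≤ ρ t) (hρ0 : ∀ s, m < s → 0 < ρ s)
    (hL : ∀ x ∈ interior S, m < f x → ρ (f x) ≤ LL τ f x) :
    ∀ y ∈ S, f y ≤ m := by
  intro y hy
  by_contra hcon
  push Not at hcon
  set s := (f y + m) / 2 with hsdef
  have hsm : m < s := by linarith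
  have hρs := hρ0 s hsm
  obtain ⟨x, hx, -, h2, h3, -, -, -, h8⟩ := maxCM hS hf hf2 hM hm hy hcon hs hp hT
    (δ := min ((f y - m) / 2) (ρ s / 2)) (lt_min (by linarith) (by linarith))
  have h4 : s ≤ f x := by
    have := min_le_left ((f y - m) / 2) (ρ s / 2)
    linarith
  have h5 := hρ s (f x) hsm h4
  have h6 := hL x hx h2
  have h7 := min_le_right ((f y - m) / 2) (ρ s / 2)
  linarith

/-- Global comparison form. -/
theorem maxCM_le_univ {f : E n → ℝ} (hf2 : ContDiff ℝ 2 f) {M m : ℝ} (hM : ∀ x, f x ≤ M)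
    {τ : E n → Mt n} {T : ℝ} (hs : ∀ x, (τ x).IsSymm)
    (hp : ∀ x, LB 0 (τ x)) (hT : ∀ x, ∑ i, τ x i i ≤ T)
    {ρ : ℝ → ℝ} (hρ : ∀ s t, m < s → s ≤ t → ρ s ≤ ρ t) (hρ0 : ∀ s, m < s → 0 < ρ s)
    (hL : ∀ x, m < f x → ρ (f x) ≤ LL τ f x) : ∀ y, f y ≤ m := by
  intro y
  refine maxCM_le (S := univ) isClosed_univ hf2.continuous.continuousOn
    (fun x _ => hf2.contDiffAt) (fun x _ => hM x) ?_ (fun x _ => hs x) (fun x _ => hp x)
    (fun x _ => hT x) hρ hρ0 (fun x _ => hL x) y (mem_univ y)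
  intro x hx
  simp at hx

/-- Exterior comparison form: `S = {R ≤ ‖x‖}`. -/
theorem maxCM_le_ext {R : ℝ} {f : E n → ℝ} (hf2 : ∀ x, R ≤ ‖x‖ → ContDiffAt ℝ 2 f x)
    {M m : ℝ} (hM : ∀ x, R ≤ ‖x‖ → f x ≤ M) (hm : ∀ x, ‖x‖ = R → f x ≤ m)
    {τ : E n → Mt n} {T : ℝ} (hs : ∀ x, R ≤ ‖x‖ → (τ x).IsSymm)
    (hp : ∀ x, R ≤ ‖x‖ → LB 0 (τ x)) (hT : ∀ x, R ≤ ‖x‖ → ∑ i, τ x i i ≤ T)
    {ρ : ℝ → ℝ} (hρ : ∀ s t, m < s → s ≤ t → ρ s ≤ ρ t) (hρ0 : ∀ s, m < s → 0 < ρ s)
    (hL : ∀ x, R ≤ ‖x‖ → m < f x → ρ (f x) ≤ LL τ f x) : ∀ y, R ≤ ‖y‖ → f y ≤ m := by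
  have hS : IsClosed {x : E n | R ≤ ‖x‖} := isClosed_le continuous_const continuous_norm
  have hin : ∀ x ∈ interior {x : E n | R ≤ ‖x‖}, R ≤ ‖x‖ := by
    intro x hx
    have := interior_subset hx
    exact this
  intro y hy
  refine maxCM_le hS (fun x hx => (hf2 x hx).continuousAt.continuousWithinAt)
    (fun x hx => hf2 x (hin x hx)) hM ?_ (fun x hx => hs x (hin x hx))
    (fun x hx => hp x (hin x hx)) (fun x hx => hT x (hin x hx)) hρ hρ0
    (fun x hx => hL x (hin x hx)) y hy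
  intro x hx
  apply hm
  have h1 : frontier {x : E n | R ≤ ‖x‖} ⊆ {x : E n | R = ‖x‖} :=
    frontier_le_subset_eq continuous_const continuous_norm
  exact (h1 hx).symm

end MM27
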